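import Pool.Agent.H39.VQ.Targets

/-!
# MP_e21eee_nt: module AS of the board `vq_modules` (adapted from Pool/Agent/H36/CV/AS.lean)
helper1
-/

set_option autoImplicit false

open Finset Polynomial

namespace Pool.Agent.H1.VQ

open Pool.Agent.H11.CV Pool.Agent.H39.VQ

/-- monotonicity of the constants -/
lemma const_mono {C₀ C₁ C₂ b : ℕ} {N P E : ℝ} (h1 : 1 ≤ C₁) (h10 : C₁ ≤ C₀) (h20 : C₂ ≤ C₀)
    (hN : 1 ≤ N) (hP : 1 ≤ P) (hE : 1 ≤ E) :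
    (C₂ : ℝ) * N ^ C₂ * ((C₁ : ℝ) * N ^ C₁ * P ^ (C₁ * b) * E) ^ C₁ ≤
      (C₀ : ℝ) * N ^ C₀ * ((C₀ : ℝ) * N ^ C₀ * P ^ (C₀ * b) * E) ^ C₀ := by
  have hC1 : (1 : ℝ) ≤ C₁ := by exact_mod_cast h1
  have hC10 : (C₁ : ℝ) ≤ C₀ := by exact_mod_cast h10
  have hC20 : (C₂ : ℝ) ≤ C₀ := by exact_mod_cast h20
  have hC0 : (1 : ℝ) ≤ C₀ := hC1.trans hC10
  have hN1 : N ^ C₁ ≤ N ^ C₀ := pow_le_pow_right₀ hN h10
  have hN2 : N ^ C₂ ≤ N ^ C₀ := pow_le_pow_right₀ hN h20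
  have hP1 : P ^ (C₁ * b) ≤ P ^ (C₀ * b) := pow_le_pow_right₀ hP (Nat.mul_le_mul_right b h10)
  have hY : (C₁ : ℝ) * N ^ C₁ * P ^ (C₁ * b) * E ≤ (C₀ : ℝ) * N ^ C₀ * P ^ (C₀ * b) * E := by
    gcongr
  have hY1 : 1 ≤ (C₀ : ℝ) * N ^ C₀ * P ^ (C₀ * b) * E := by
    have a1 : 1 ≤ N ^ C₀ := one_le_pow₀ hN
    have a2 : 1 ≤ P ^ (C₀ * b) := one_le_pow₀ hP
    exact one_le_mul_of_one_le_of_one_le (one_le_mul_of_one_le_of_one_le
      (one_le_mul_of_one_le_of_one_le hC0 a1) a2) hE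
  have hpow : ((C₁ : ℝ) * N ^ C₁ * P ^ (C₁ * b) * E) ^ C₁ ≤
      ((C₀ : ℝ) * N ^ C₀ * P ^ (C₀ * b) * E) ^ C₀ :=
    (pow_le_pow_left₀ (by positivity) hY C₁).trans (pow_le_pow_right₀ hY1 h10)
  have hfirst : (C₂ : ℝ) * N ^ C₂ ≤ (C₀ : ℝ) * N ^ C₀ := by gcongr
  exact mul_le_mul hfirst hpow (by positivity) (by positivity)

lemma base_one {C₁ b : ℕ} {N P E : ℝ} (h1 : 1 ≤ C₁)
    (hN : 1 ≤ N) (hP : 1 ≤ P) (hE : 1 ≤ E) :
    1 ≤ ((C₁ : ℝ) * N ^ C₁ * P ^ (C₁ * b) * E) ^ C₁ := by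
  have hC1 : (1 : ℝ) ≤ C₁ := by exact_mod_cast h1
  have a1 : 1 ≤ N ^ C₁ := one_le_pow₀ hN
  have a2 : 1 ≤ P ^ (C₁ * b) := one_le_pow₀ hP
  exact one_le_pow₀ (one_le_mul_of_one_le_of_one_le (one_le_mul_of_one_le_of_one_le
      (one_le_mul_of_one_le_of_one_le hC1 a1) a2) hE)

theorem pf_AS (hSO : T_SO) (hLF : T_LF) (hL0 : T_L0) (hFL : V_FL) (hAL : V_AL) : V_AS := by
  intro k p hk hp hpk
  have hp1 : 1 < p := hp.one_lt
  have hpR : (1 : ℝ) ≤ p := by exact_mod_cast hp1.le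
  have key : ∀ d : ℕ, 3 ≤ d → d ≤ k → ∃ C : ℝ, 0 ≤ C ∧ ∀ n : ℕ, 1 ≤ n →
      Flat p d n (Real.exp (C * (n : ℝ) ^ (((d : ℝ) - 3) / ((d : ℝ) - 2)) *
        Real.log ((n : ℝ) + 1) ^ 2)) := by
    intro d hd
    induction d, hd using Nat.le_induction with
    | base =>
      intro h3k
      have h432 : 432 ≤ p := by
        refine le_trans ?_ hpk
        calc 432 = 16 * 3 ^ 3 := by norm_num
          _ ≤ 16 * k ^ 3 := Nat.mul_le_mul_left _ (Nat.pow_le_pow_left h3k 3)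
      obtain ⟨C, hC, hfl⟩ := hFL p hp h432
      refine ⟨C, hC, ?_⟩
      intro n hn
      have : (((3 : ℕ) : ℝ) - 3) / (((3 : ℕ) : ℝ) - 2) = 0 := by norm_num
      rw [this, Real.rpow_zero, mul_one]
      exact hfl n hn
    | succ d hd ih =>
      intro hdk
      obtain ⟨C₁', hC₁', hfl⟩ := ih (by omega)
      have h16 : 16 * (d + 1) ^ 3 ≤ p := by
        refine le_trans ?_ hpk
        exact Nat.mul_le_mul_left _ (Nat.pow_le_pow_left hdk 3)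
      have hdR : (3 : ℝ) ≤ d := by exact_mod_cast hd
      obtain ⟨C₁, hC₁, hso⟩ := hSO p (d + 1) hp h16 (by omega)
      obtain ⟨C₂, hC₂, hlf⟩ := hLF p (d + 1) hp1 (by omega)
      have hγ0 : 0 ≤ ((d : ℝ) - 3) / ((d : ℝ) - 2) := div_nonneg (by linarith) (by linarith)
      have hγ1 : ((d : ℝ) - 3) / ((d : ℝ) - 2) < 1 := by
        rw [div_lt_one (by linarith)]
        linarith
      obtain ⟨C, hC, ha⟩ := hAL (max C₁ C₂) p C₁' _ hpR hC₁' hγ0 hγ1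
      refine ⟨C, hC, ?_⟩
      intro n hn
      obtain ⟨b, hb, hb2⟩ := ha n hn
      obtain ⟨-, -, hmono⟩ := hL0 p (d + 1) hp1 (by omega)
      have hN : (1 : ℝ) ≤ (n : ℝ) + 1 := by
        have : (0 : ℝ) ≤ n := Nat.cast_nonneg n
        linarith
      have hD : (1 : ℝ) ≤ Real.exp (C₁' * (b : ℝ) ^ (((d : ℝ) - 3) / ((d : ℝ) - 2)) *
          Real.log ((b : ℝ) + 1) ^ 2) := by
        apply Real.one_le_exp
        positivity
      have hlev := hso n b _ hb hD (by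
        rw [Nat.add_sub_cancel]
        exact hfl b hb)
      have hflat := hlf n _ (base_one hC₁ hN hpR (one_le_pow₀ hD)) hlev
      refine hmono n _ _ ?_ hflat
      have h3 := const_mono (b := b) hC₁ (le_max_left C₁ C₂) (le_max_right C₁ C₂)
        hN hpR (one_le_pow₀ (n := n / b + 1) hD)
      refine (h3.trans hb2).trans (le_of_eq ?_)
      have h6 : 1 / (2 - ((d : ℝ) - 3) / ((d : ℝ) - 2)) =
          (((d + 1 : ℕ) : ℝ) - 3) / (((d + 1 : ℕ) : ℝ) - 2) := by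
        have h7 : (d : ℝ) - 2 ≠ 0 := by linarith
        have h8 : (d : ℝ) - 1 ≠ 0 := by linarith
        have h9 : 2 - ((d : ℝ) - 3) / ((d : ℝ) - 2) = ((d : ℝ) - 1) / ((d : ℝ) - 2) := by
          field_simp
          ring
        rw [h9, one_div_div]
        push_cast
        congr 1 <;> ring
      rw [h6]
  exact key k hk le_rfl

end Pool.Agent.H1.VQ
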